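import Mathlib

/-!
Clifford algebra part: involutions `x_s` with `(x_s x_t)^{m_{st}} = ± 1`, with prescribed signs for
`m_{st} ≥ 3` and sign `-1` for `m_{st} = 2`.
-/

set_option autoImplicit false

namespace Pool.Agent.N908.Cox

open CliffordAlgebra

section Pow

variable {𝒜 : Type*} [Ring 𝒜] [Algebra ℝ 𝒜]

theorem sin_smul_pow {x y : 𝒜} (hx : x * x = 1) (hy : y * y = 1) {θ : ℝ}
    (h : x * y + y * x = algebraMap ℝ 𝒜 (2 * Real.cos θ)) (n : ℕ) :
    Real.sin θ • (x * y) ^ (n + 1) =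
      Real.sin ((n + 1 : ℕ) * θ) • (x * y) - Real.sin (n * θ) • (1 : 𝒜) := by
  have hu : (x * y) * (x * y) = (2 * Real.cos θ) • (x * y) - 1 := by
    have h1 : x * y = algebraMap ℝ 𝒜 (2 * Real.cos θ) - y * x := by
      rw [← h]; abel
    have h2 : (x * y) * (y * x) = 1 := by
      rw [mul_assoc, ← mul_assoc y y x, hy, one_mul, hx]
    calc (x * y) * (x * y) = (x * y) * (algebraMap ℝ 𝒜 (2 * Real.cos θ) - y * x) := by rw [← h1]
      _ = (x * y) * algebraMap ℝ 𝒜 (2 * Real.cos θ) - (x * y) * (y * x) := by rw [mul_sub]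
      _ = (2 * Real.cos θ) • (x * y) - 1 := by
          rw [h2, ← Algebra.commutes, Algebra.smul_def]
  induction n with
  | zero => simp
  | succ n ih =>
    have e1 : Real.sin θ • (x * y) ^ (n + 1 + 1) = (x * y) * (Real.sin θ • (x * y) ^ (n + 1)) := by
      rw [mul_smul_comm, ← pow_succ']
    rw [e1, ih, mul_sub, mul_smul_comm, mul_smul_comm, hu, mul_one, smul_sub, smul_smul]
    have e2 : Real.sin ((n + 1 + 1 : ℕ) * θ) =
        Real.sin ((n + 1 : ℕ) * θ) * (2 * Real.cos θ) - Real.sin (n * θ) := by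
      have a1 : ((n + 1 + 1 : ℕ) : ℝ) * θ = ((n + 1 : ℕ) : ℝ) * θ + θ := by push_cast; ring
      have a2 : ((n : ℕ) : ℝ) * θ = ((n + 1 : ℕ) : ℝ) * θ - θ := by push_cast; ring
      rw [a1, a2, Real.sin_add, Real.sin_sub]
      ring
    rw [e2, sub_smul]
    abel

theorem pow_neg_one {x y : 𝒜} (hx : x * x = 1) (hy : y * y = 1) {m : ℕ} (hm : 2 ≤ m)
    (h : x * y + y * x = algebraMap ℝ 𝒜 (2 * Real.cos (Real.pi / m))) :
    (x * y) ^ m = -1 := by
  obtain ⟨n, rfl⟩ : ∃ n, m = n + 1 := ⟨m - 1, by omega⟩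
  have h1 := sin_smul_pow hx hy h n
  set θ : ℝ := Real.pi / (n + 1 : ℕ) with hθ
  have hn : (0 : ℝ) < ((n + 1 : ℕ) : ℝ) := by positivity
  have e1 : ((n + 1 : ℕ) : ℝ) * θ = Real.pi := by rw [hθ]; field_simp
  have e2 : (n : ℝ) * θ = Real.pi - θ := by
    rw [← e1]; push_cast; ring
  rw [e1, e2, Real.sin_pi, Real.sin_pi_sub, zero_smul, zero_sub] at h1
  have hs : Real.sin θ ≠ 0 := by
    apply ne_of_gt
    apply Real.sin_pos_of_pos_of_lt_pi
    · rw [hθ]; positivity
    · rw [hθ]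
      apply div_lt_self Real.pi_pos
      have : 2 ≤ n + 1 := hm
      exact_mod_cast (by omega : 1 < n + 1)
  rw [← smul_neg] at h1
  exact smul_right_injective 𝒜 hs h1

theorem pow_one {x y : 𝒜} (hx : x * x = 1) (hy : y * y = 1) {m : ℕ} (hm : 3 ≤ m)
    (h : x * y + y * x = algebraMap ℝ 𝒜 (2 * Real.cos (2 * Real.pi / m))) :
    (x * y) ^ m = 1 := by
  obtain ⟨n, rfl⟩ : ∃ n, m = n + 1 := ⟨m - 1, by omega⟩
  have h1 := sin_smul_pow hx hy h n
  set θ : ℝ := 2 * Real.pi / (n + 1 : ℕ) with hθ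
  have hn : (0 : ℝ) < ((n + 1 : ℕ) : ℝ) := by positivity
  have e1 : ((n + 1 : ℕ) : ℝ) * θ = 2 * Real.pi := by rw [hθ]; field_simp
  have e2 : (n : ℝ) * θ = 2 * Real.pi - θ := by
    rw [← e1]; push_cast; ring
  rw [e1, e2, Real.sin_two_pi, Real.sin_two_pi_sub, zero_smul, zero_sub] at h1
  have hs : Real.sin θ ≠ 0 := by
    apply ne_of_gt
    apply Real.sin_pos_of_pos_of_lt_pi
    · rw [hθ]; positivity
    · rw [hθ, div_lt_iff₀ hn]
      have : (2 : ℝ) < ((n + 1 : ℕ) : ℝ) := by exact_mod_cast (by omega : 2 < n + 1)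
      nlinarith [Real.pi_pos]
  rw [← neg_smul, neg_neg] at h1
  exact smul_right_injective 𝒜 hs h1

end Pow

section Cliff

variable {B : Type*}

/-- the bilinear form with Gram matrix `A` -/
noncomputable def bil (A : B → B → ℝ) : LinearMap.BilinForm ℝ (B →₀ ℝ) :=
  Finsupp.linearCombination ℝ fun s => Finsupp.linearCombination ℝ (A s)

theorem bil_single (A : B → B → ℝ) (s t : B) :
    bil A (Finsupp.single s 1) (Finsupp.single t 1) = A s t := by
  unfold bil
  simp [Finsupp.linearCombination_single]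

/-- the quadratic form -/
noncomputable def QQ (A : B → B → ℝ) : QuadraticForm ℝ (B →₀ ℝ) := (bil A).toQuadraticMap

/-- the generators of the Clifford algebra -/
noncomputable def xx (A : B → B → ℝ) (s : B) : CliffordAlgebra (QQ A) :=
  ι (QQ A) (Finsupp.single s 1)

theorem xx_sq {A : B → B → ℝ} (h : ∀ s, A s s = 1) (s : B) : xx A s * xx A s = 1 := by
  unfold xx
  rw [ι_sq_scalar]
  have : (QQ A) (Finsupp.single s 1) = 1 := by
    unfold QQ
    rw [LinearMap.BilinMap.toQuadraticMap_apply, bil_single, h]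
  rw [this, map_one]

theorem xx_swap {A : B → B → ℝ} (h : ∀ s t, A s t = A t s) (s t : B) :
    xx A s * xx A t + xx A t * xx A s = algebraMap ℝ _ (2 * A s t) := by
  unfold xx
  rw [ι_mul_ι_add_swap]
  congr 1
  unfold QQ
  rw [LinearMap.BilinMap.polar_toQuadraticMap, bil_single, bil_single, h t s]
  ring

theorem one_ne_neg_one (A : B → B → ℝ) : (1 : CliffordAlgebra (QQ A)) ≠ -1 := by
  intro h
  have h1 : (2 : CliffordAlgebra (QQ A)) = 0 := by
    have : (1 : CliffordAlgebra (QQ A)) + 1 = 0 := by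
      nth_rewrite 1 [h]
      exact neg_add_cancel 1
    rw [← this]; norm_num
  have h2 : algebraMap ℝ (CliffordAlgebra (QQ A)) 2 = 0 := by
    rw [map_ofNat]; exact h1
  have : Invertible (2 : ℝ) := invertibleOfNonzero (by norm_num)
  have h3 : Function.Injective (algebraMap ℝ (CliffordAlgebra (QQ A))) :=
    FaithfulSMul.algebraMap_injective _ _
  have h4 := h3 (h2.trans (map_zero _).symm)
  norm_num at h4

end Cliff

end Pool.Agent.N908.Cox
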