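import Mathlib

/-!
The group `EE P` generated by a central involution `q` and involutions `[x]`, `x ∈ X`, where
`[x]` and `[y]` commute up to `q` if `P x y` and commute otherwise.
-/

set_option autoImplicit false
set_option linter.all false

namespace Pool.Agent.N908.Cox

section Ext

variable {X : Type*} (P : X → X → Prop)

/-- the relations -/
def relE : Set (FreeGroup (Option X)) :=
  {r | r = FreeGroup.of none * FreeGroup.of none ∨
    (∃ x, r = FreeGroup.of (some x) * FreeGroup.of (some x)) ∨
    (∃ x, r = FreeGroup.of none * FreeGroup.of (some x) * (FreeGroup.of none)⁻¹ *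
      (FreeGroup.of (some x))⁻¹) ∨
    (∃ x y, ¬ P x y ∧ r = FreeGroup.of (some x) * FreeGroup.of (some y) *
      (FreeGroup.of (some x))⁻¹ * (FreeGroup.of (some y))⁻¹) ∨
    (∃ x y, P x y ∧ r = FreeGroup.of (some x) * FreeGroup.of (some y) *
      (FreeGroup.of (some x))⁻¹ * (FreeGroup.of (some y))⁻¹ * (FreeGroup.of none)⁻¹)}

/-- the group -/
def EE : Type _ := PresentedGroup (relE P)

noncomputable instance : Group (EE P) := inferInstanceAs (Group (PresentedGroup (relE P)))

/-- the central involution -/
def qq : EE P := PresentedGroup.of (rels := relE P) none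

/-- the generators -/
def br (x : X) : EE P := PresentedGroup.of (rels := relE P) (some x)

variable {P}

theorem rel_one {r : FreeGroup (Option X)} (h : r ∈ relE P) :
    (PresentedGroup.mk (relE P) r : EE P) = 1 :=
  PresentedGroup.one_of_mem h

theorem qq_sq : qq P * qq P = 1 := by
  have := rel_one (P := P) (r := FreeGroup.of none * FreeGroup.of none) (Or.inl rfl)
  rwa [map_mul] at this

theorem br_sq (x : X) : br P x * br P x = 1 := by
  have := rel_one (P := P) (r := FreeGroup.of (some x) * FreeGroup.of (some x))
    (Or.inr (Or.inl ⟨x, rfl⟩))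
  rwa [map_mul] at this

theorem qq_br (x : X) : qq P * br P x = br P x * qq P := by
  have := rel_one (P := P) (r := FreeGroup.of none * FreeGroup.of (some x) * (FreeGroup.of none)⁻¹ *
      (FreeGroup.of (some x))⁻¹) (Or.inr (Or.inr (Or.inl ⟨x, rfl⟩)))
  rw [map_mul, map_mul, map_mul, map_inv, map_inv] at this
  have h : qq P * br P x * (qq P)⁻¹ * (br P x)⁻¹ = 1 := this
  rw [mul_inv_eq_one, mul_inv_eq_iff_eq_mul] at h
  exact h

theorem br_comm {x y : X} (hxy : ¬ P x y) : br P x * br P y = br P y * br P x := by
  have := rel_one (P := P) (r := FreeGroup.of (some x) * FreeGroup.of (some y) *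
      (FreeGroup.of (some x))⁻¹ * (FreeGroup.of (some y))⁻¹)
    (Or.inr (Or.inr (Or.inr (Or.inl ⟨x, y, hxy, rfl⟩))))
  rw [map_mul, map_mul, map_mul, map_inv, map_inv] at this
  have h : br P x * br P y * (br P x)⁻¹ * (br P y)⁻¹ = 1 := this
  rw [mul_inv_eq_one, mul_inv_eq_iff_eq_mul] at h
  exact h

theorem br_anti {x y : X} (hxy : P x y) : br P x * br P y = qq P * (br P y * br P x) := by
  have := rel_one (P := P) (r := FreeGroup.of (some x) * FreeGroup.of (some y) *
      (FreeGroup.of (some x))⁻¹ * (FreeGroup.of (some y))⁻¹ * (FreeGroup.of none)⁻¹)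
    (Or.inr (Or.inr (Or.inr (Or.inr ⟨x, y, hxy, rfl⟩))))
  rw [map_mul, map_mul, map_mul, map_mul, map_inv, map_inv, map_inv] at this
  have h : br P x * br P y * (br P x)⁻¹ * (br P y)⁻¹ * (qq P)⁻¹ = 1 := this
  rw [mul_inv_eq_one, mul_inv_eq_iff_eq_mul, mul_inv_eq_iff_eq_mul] at h
  rw [h, mul_assoc]

/-- maps out of the group -/
noncomputable def liftE {G : Type*} [Group G] (z : G) (f : X → G) (hz : z * z = 1)
    (hf : ∀ x, f x * f x = 1) (hzf : ∀ x, z * f x = f x * z)
    (h0 : ∀ x y, ¬ P x y → f x * f y = f y * f x)
    (h1 : ∀ x y, P x y → f x * f y = z * (f y * f x)) : EE P →* G :=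
  PresentedGroup.toGroup (f := fun o => Option.elim o z f) (rels := relE P) (by
    rintro r (rfl | ⟨x, rfl⟩ | ⟨x, rfl⟩ | ⟨x, y, hxy, rfl⟩ | ⟨x, y, hxy, rfl⟩)
    · simpa using hz
    · simpa using hf x
    · simp only [map_mul, FreeGroup.lift_apply_of, Option.elim_none, Option.elim_some, map_inv]
      rw [hzf]; group
    · simp only [map_mul, FreeGroup.lift_apply_of, Option.elim_some, map_inv]
      rw [h0 x y hxy]; group
    · simp only [map_mul, FreeGroup.lift_apply_of, Option.elim_none, Option.elim_some, map_inv]
      rw [h1 x y hxy]; group)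

theorem liftE_qq {G : Type*} [Group G] {z : G} {f : X → G} {hz : z * z = 1}
    {hf : ∀ x, f x * f x = 1} {hzf : ∀ x, z * f x = f x * z}
    {h0 : ∀ x y, ¬ P x y → f x * f y = f y * f x}
    {h1 : ∀ x y, P x y → f x * f y = z * (f y * f x)} :
    liftE z f hz hf hzf h0 h1 (qq P) = z :=
  PresentedGroup.toGroup.of _

theorem liftE_br {G : Type*} [Group G] {z : G} {f : X → G} {hz : z * z = 1}
    {hf : ∀ x, f x * f x = 1} {hzf : ∀ x, z * f x = f x * z}
    {h0 : ∀ x y, ¬ P x y → f x * f y = f y * f x}
    {h1 : ∀ x y, P x y → f x * f y = z * (f y * f x)} (x : X) :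
    liftE z f hz hf hzf h0 h1 (br P x) = f x :=
  PresentedGroup.toGroup.of _

theorem hom_ext {G : Type*} [Group G] {φ ψ : EE P →* G} (h0 : φ (qq P) = ψ (qq P))
    (h1 : ∀ x, φ (br P x) = ψ (br P x)) : φ = ψ := by
  apply PresentedGroup.ext
  rintro (_ | x)
  · exact h0
  · exact h1 x

/-- `q` is central -/
theorem qq_central (e : EE P) : qq P * e = e * qq P := by
  have h : (MulAut.conj (qq P)).toMonoidHom = MonoidHom.id (EE P) := by
    apply hom_ext
    · simp
    · intro x
      show qq P * br P x * (qq P)⁻¹ = br P x
      rw [qq_br, mul_inv_cancel_right]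
  have h2 := DFunLike.congr_fun h e
  have h3 : qq P * e * (qq P)⁻¹ = e := h2
  rwa [mul_inv_eq_iff_eq_mul] at h3

/-! ### lists of generators -/

theorem list_comm (x : X) (l : List X) :
    (l.map (br P)).prod * br P x = br P x * (l.map (br P)).prod ∨
    (l.map (br P)).prod * br P x = qq P * (br P x * (l.map (br P)).prod) := by
  classical
  induction l with
  | nil => left; simp
  | cons y l ih =>
    simp only [List.map_cons, List.prod_cons]
    set T := (l.map (br P)).prod
    by_cases hxy : P y x
    · have hb := br_anti hxy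
      rcases ih with h | h
      · right
        calc br P y * T * br P x = br P y * (T * br P x) := by group
          _ = (br P y * br P x) * T := by rw [h]; group
          _ = qq P * (br P x * (br P y * T)) := by rw [hb]; group
      · left
        calc br P y * T * br P x = br P y * (T * br P x) := by group
          _ = br P y * qq P * br P x * T := by rw [h]; group
          _ = qq P * (br P y * br P x) * T := by rw [← qq_central]; group
          _ = (qq P * qq P) * (br P x * (br P y * T)) := by rw [hb]; group
          _ = br P x * (br P y * T) := by rw [qq_sq, one_mul]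
    · have hb := br_comm hxy
      rcases ih with h | h
      · left
        calc br P y * T * br P x = br P y * (T * br P x) := by group
          _ = (br P y * br P x) * T := by rw [h]; group
          _ = br P x * (br P y * T) := by rw [hb]; group
      · right
        calc br P y * T * br P x = br P y * (T * br P x) := by group
          _ = br P y * qq P * br P x * T := by rw [h]; group
          _ = qq P * (br P y * br P x) * T := by rw [← qq_central]; group
          _ = qq P * (br P x * (br P y * T)) := by rw [hb]; group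

theorem list_inv (l : List X) :
    ((l.map (br P)).prod)⁻¹ = (l.map (br P)).prod ∨
    ((l.map (br P)).prod)⁻¹ = qq P * (l.map (br P)).prod := by
  induction l with
  | nil => left; simp
  | cons y l ih =>
    simp only [List.map_cons, List.prod_cons, mul_inv_rev]
    set T := (l.map (br P)).prod with hT
    have hy : (br P y)⁻¹ = br P y := by
      rw [inv_eq_iff_mul_eq_one]; exact br_sq y
    rw [hy]
    have hc := list_comm (P := P) y l
    rw [← hT] at hc
    rcases ih with h | h <;> rcases hc with h2 | h2 <;> rw [h]
    · left; exact h2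
    · right; exact h2
    · right; rw [mul_assoc, h2]
    · left
      rw [mul_assoc, h2, ← mul_assoc, qq_sq, one_mul]

theorem list_sq (l : List X) :
    (l.map (br P)).prod * (l.map (br P)).prod = 1 ∨
    (l.map (br P)).prod * (l.map (br P)).prod = qq P := by
  set T := (l.map (br P)).prod with hT
  have h := list_inv (P := P) l
  rw [← hT] at h
  rcases h with h | h
  · left
    nth_rewrite 1 [← h]
    exact inv_mul_cancel T
  · right
    have h1 : 1 = qq P * (T * T) := by
      rw [← mul_assoc, ← h, inv_mul_cancel]
    have h2 : qq P * 1 = qq P * (qq P * (T * T)) := by rw [← h1]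
    rw [mul_one, ← mul_assoc, qq_sq, one_mul] at h2
    exact h2.symm

end Ext

/-! ### `q ≠ 1` -/

section Model

variable {X : Type*} [LinearOrder X] (P : X → X → Prop)

open scoped Classical in
/-- the oriented form -/
noncomputable def bet (x : X) : (X →₀ ZMod 2) →ₗ[ZMod 2] ZMod 2 :=
  Finsupp.linearCombination (ZMod 2) fun y => if P x y ∧ x < y then (1 : ZMod 2) else 0

open scoped Classical in
theorem bet_single (x y : X) :
    bet P x (Finsupp.single y 1) = if P x y ∧ x < y then (1 : ZMod 2) else 0 := by
  unfold bet
  simp [Finsupp.linearCombination_single]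

theorem two_single (x : X) : Finsupp.single x (1 : ZMod 2) + Finsupp.single x 1 = 0 := by
  rw [← Finsupp.single_add]
  have : (1 : ZMod 2) + 1 = 0 := by decide
  rw [this, Finsupp.single_zero]

theorem zmod_two (a : ZMod 2) : a + a = 0 := by
  revert a; decide

/-- the permutation attached to a generator -/
noncomputable def pe (x : X) : Equiv.Perm ((X →₀ ZMod 2) × ZMod 2) where
  toFun v := (v.1 + Finsupp.single x 1, v.2 + bet P x v.1)
  invFun v := (v.1 + Finsupp.single x 1, v.2 + bet P x v.1)
  left_inv v := by
    have h0 : bet P x (Finsupp.single x 1) = 0 := by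
      rw [bet_single]; simp
    ext1
    · simp only
      rw [add_assoc, two_single, add_zero]
    · simp only
      rw [map_add, h0, add_zero, add_assoc, zmod_two, add_zero]
  right_inv v := by
    have h0 : bet P x (Finsupp.single x 1) = 0 := by
      rw [bet_single]; simp
    ext1
    · simp only
      rw [add_assoc, two_single, add_zero]
    · simp only
      rw [map_add, h0, add_zero, add_assoc, zmod_two, add_zero]

/-- the permutation attached to `q` -/
def pz (X : Type*) : Equiv.Perm ((X →₀ ZMod 2) × ZMod 2) where
  toFun v := (v.1, v.2 + 1)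
  invFun v := (v.1, v.2 + 1)
  left_inv v := by
    ext1
    · rfl
    · simp only
      rw [add_assoc, zmod_two, add_zero]
  right_inv v := by
    ext1
    · rfl
    · simp only
      rw [add_assoc, zmod_two, add_zero]

theorem pz_ne (X : Type*) : pz X ≠ 1 := by
  intro h
  have h1 := DFunLike.congr_fun h ((0 : X →₀ ZMod 2), (0 : ZMod 2))
  have h2 : ((0 : X →₀ ZMod 2), (0 : ZMod 2) + 1) = ((0 : X →₀ ZMod 2), (0 : ZMod 2)) := h1
  have h3 := (Prod.ext_iff.1 h2).2
  simp at h3

theorem pe_pe (x y : X) (v : (X →₀ ZMod 2) × ZMod 2) : (pe P x * pe P y) v =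
    (v.1 + Finsupp.single y 1 + Finsupp.single x 1,
      v.2 + bet P y v.1 + (bet P x v.1 + bet P x (Finsupp.single y 1))) := by
  show pe P x (pe P y v) = _
  show (v.1 + Finsupp.single y 1 + Finsupp.single x 1,
    v.2 + bet P y v.1 + bet P x (v.1 + Finsupp.single y 1)) = _
  rw [map_add]

end Model

theorem qq_ne {X : Type*} {P : X → X → Prop} (hP : ∀ x y, P x y → P y x)
    (hirr : ∀ x, ¬ P x x) : qq P ≠ 1 := by
  classical
  letI : LinearOrder X := linearOrderOfSTO (WellOrderingRel (α := X))
  have hE : ∃ φ : EE P →* Equiv.Perm ((X →₀ ZMod 2) × ZMod 2), φ (qq P) = pz X := by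
    refine ⟨liftE (P := P) (pz X) (pe P) ?_ ?_ ?_ ?_ ?_, liftE_qq⟩
    · ext1 v
      exact (pz X).left_inv v
    · intro x
      ext1 v
      exact (pe P x).left_inv v
    · intro x
      ext1 v
      show ((v.1 + Finsupp.single x 1, v.2 + bet P x v.1 + 1) : (X →₀ ZMod 2) × ZMod 2) =
        (v.1 + Finsupp.single x 1, v.2 + 1 + bet P x v.1)
      rw [add_right_comm]
    · intro x y hxy
      ext1 v
      rw [pe_pe, pe_pe, bet_single, bet_single]
      have h1 : ¬ (P x y ∧ x < y) := fun h => hxy h.1
      have h2 : ¬ (P y x ∧ y < x) := fun h => hxy (hP _ _ h.1)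
      rw [if_neg h1, if_neg h2]
      ext1
      · simp only
        rw [add_right_comm]
      · simp only
        ring
    · intro x y hxy
      ext1 v
      show _ = pz X ((pe P y * pe P x) v)
      rw [pe_pe, pe_pe, bet_single, bet_single]
      have hne : x ≠ y := fun h => hirr x (h ▸ hxy)
      have hyx := hP _ _ hxy
      ext1
      · show v.1 + Finsupp.single y 1 + Finsupp.single x 1 = v.1 + Finsupp.single x 1 +
          Finsupp.single y 1
        rw [add_right_comm]
      · show v.2 + bet P y v.1 + (bet P x v.1 + if P x y ∧ x < y then (1 : ZMod 2) else 0) =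
          v.2 + bet P x v.1 + (bet P y v.1 + if P y x ∧ y < x then (1 : ZMod 2) else 0) + 1
        rcases lt_or_gt_of_ne hne with h | h
        · rw [if_pos ⟨hxy, h⟩, if_neg (fun hh => lt_asymm h hh.2)]
          ring
        · rw [if_neg (fun hh => lt_asymm h hh.2), if_pos ⟨hyx, h⟩]
          have : (1 : ZMod 2) + 1 = 0 := by decide
          linear_combination -this
  obtain ⟨φ, hφ⟩ := hE
  intro h
  apply pz_ne X
  rw [← hφ, h, map_one]

end Pool.Agent.N908.Cox
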