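import Pool.Agent.N908.Cox.Semi

/-!
Existence of a group with involutions `f s` and a central involution `z` such that
`(f s * f t)^{m_{st}}` is `1` or `z` according to a given sign choice.
-/

set_option autoImplicit false
set_option linter.all false

namespace Pool.Agent.N908.Cox

universe u v

/-! ### gluing two groups along central involutions -/

section Glue

variable {G₁ : Type u} {G₂ : Type v} [Group G₁] [Group G₂]

theorem glue (z₁ : G₁) (z₂ : G₂) (h₁ : z₁ * z₁ = 1) (h₂ : z₂ * z₂ = 1)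
    (c₁ : ∀ g, z₁ * g = g * z₁) (c₂ : ∀ g, z₂ * g = g * z₂) (n₁ : z₁ ≠ 1) (n₂ : z₂ ≠ 1) :
    ∃ (G : Type (max u v)) (_ : Group G) (φ : G₁ × G₂ →* G) (z : G), φ (z₁, 1) = z ∧ φ (1, z₂) = z ∧
      z ≠ 1 ∧ z * z = 1 ∧ ∀ g, z * g = g * z := by
  let N : Subgroup (G₁ × G₂) := Subgroup.zpowers (z₁, z₂)
  have hcen : ∀ g : G₁ × G₂, (z₁, z₂) * g = g * (z₁, z₂) := fun g =>
    Prod.ext (c₁ g.1) (c₂ g.2)
  have hN : N.Normal := by
    refine ⟨fun n hn g => ?_⟩
    obtain ⟨k, rfl⟩ := Subgroup.mem_zpowers_iff.1 hn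
    have hc : Commute (z₁, z₂) g := hcen g
    have h1 : g * (z₁, z₂) ^ k * g⁻¹ = (z₁, z₂) ^ k := by
      rw [(hc.zpow_left k).symm.eq, mul_inv_cancel_right]
    rw [h1]
    exact hn
  have hmem : ∀ a ∈ N, a = 1 ∨ a = (z₁, z₂) := by
    intro a ha
    obtain ⟨k, rfl⟩ := Subgroup.mem_zpowers_iff.1 ha
    have hsq : ((z₁, z₂) : G₁ × G₂) ^ (2 : ℤ) = 1 := by
      rw [zpow_two]
      exact Prod.ext h₁ h₂
    rcases Int.even_or_odd' k with ⟨j, rfl | rfl⟩
    · left; rw [zpow_mul, hsq, one_zpow]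
    · right; rw [zpow_add, zpow_mul, hsq, one_zpow, one_mul, zpow_one]
  refine ⟨(G₁ × G₂) ⧸ N, inferInstance, QuotientGroup.mk' N, QuotientGroup.mk' N (z₁, 1), rfl,
    ?_, ?_, ?_, ?_⟩
  · rw [QuotientGroup.mk'_apply, QuotientGroup.mk'_apply, QuotientGroup.eq]
    have e : ((1, z₂) : G₁ × G₂)⁻¹ * (z₁, 1) = (z₁, z₂) := by
      refine Prod.ext ?_ ?_
      · simp
      · simp only [Prod.snd_mul, Prod.snd_inv, mul_one]
        exact inv_eq_of_mul_eq_one_left h₂
    rw [e]
    exact Subgroup.mem_zpowers _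
  · intro h
    rw [QuotientGroup.mk'_apply, QuotientGroup.eq_one_iff] at h
    rcases hmem _ h with h' | h'
    · exact n₁ (Prod.ext_iff.1 h').1
    · exact n₂ (Prod.ext_iff.1 h').2.symm
  · rw [← map_mul]
    have : ((z₁, 1) : G₁ × G₂) * (z₁, 1) = 1 := Prod.ext h₁ (one_mul 1)
    rw [this, map_one]
  · intro g
    obtain ⟨g, rfl⟩ := QuotientGroup.mk'_surjective N g
    rw [← map_mul, ← map_mul]
    congr 1
    exact Prod.ext (c₁ g.1) (by simp)

end Glue

section Main

variable {B : Type u} {W : Type v} [Group W] {M : CoxeterMatrix B} (cs : CoxeterSystem M W)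

theorem two_le {s t : B} (h : s ≠ t) (h0 : M s t ≠ 0) : 2 ≤ M s t := by
  have h1 : M s t ≠ 1 := M.off_diagonal s t h
  omega

open scoped Classical in
/-- the Gram matrix attached to a sign choice `d` -/
noncomputable def gram (M : CoxeterMatrix B) (d : B → B → ℤˣ) (s t : B) : ℝ :=
  if s = t then 1
  else if M s t = 0 then 0
  else if M s t = 2 then 0
  else if d s t = 1 then Real.cos (2 * Real.pi / M s t)
  else Real.cos (Real.pi / M s t)

/-- the Clifford solution -/
theorem cliff (M : CoxeterMatrix B) (d : B → B → ℤˣ)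
    (hd : ∀ s t, s ≠ t → M s t ≠ 0 → d s t = d t s) :
    ∃ (G : Type u) (_ : Group G) (z : G) (f : B → G), z ≠ 1 ∧ z * z = 1 ∧ (∀ g, z * g = g * z) ∧
      (∀ s, f s * f s = 1) ∧
      (∀ s t, s ≠ t → M s t = 2 → (f s * f t) ^ M s t = z) ∧
      (∀ s t, s ≠ t → M s t ≠ 0 → M s t ≠ 2 → d s t = 1 → (f s * f t) ^ M s t = 1) ∧
      (∀ s t, s ≠ t → M s t ≠ 0 → M s t ≠ 2 → d s t ≠ 1 → (f s * f t) ^ M s t = z) := by
  classical
  have hs : ∀ s t, gram M d s t = gram M d t s := by
    intro s t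
    unfold gram
    by_cases h : s = t
    · subst h; rfl
    · rw [if_neg h, if_neg (Ne.symm h), M.symmetric t s]
      by_cases h0 : M s t = 0
      · rw [if_pos h0, if_pos h0]
      · rw [hd s t h h0]
  have hdiag : ∀ s, gram M d s s = 1 := fun s => by unfold gram; rw [if_pos rfl]
  have hsq := xx_sq hdiag
  let f : B → (CliffordAlgebra (QQ (gram M d)))ˣ := fun s =>
    ⟨xx (gram M d) s, xx (gram M d) s, hsq s, hsq s⟩
  refine ⟨(CliffordAlgebra (QQ (gram M d)))ˣ, inferInstance, -1, f, ?_, ?_, ?_, ?_, ?_, ?_, ?_⟩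
  · intro h
    have h1 := congrArg Units.val h
    simp only [Units.val_neg, Units.val_one] at h1
    exact one_ne_neg_one _ h1.symm
  · simp
  · intro g; simp
  · intro s
    apply Units.ext
    exact hsq s
  · intro s t hst h2
    apply Units.ext
    have hsw := xx_swap hs s t
    have hg : gram M d s t = Real.cos (Real.pi / M s t) := by
      unfold gram
      rw [if_neg hst, if_neg (by omega), if_pos h2, h2]
      simp
    rw [hg] at hsw
    have := pow_neg_one (hsq s) (hsq t) (m := M s t) (by omega) hsw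
    rw [Units.val_pow_eq_pow_val]
    simpa using this
  · intro s t hst h0 h2 h1
    apply Units.ext
    have hsw := xx_swap hs s t
    have hg : gram M d s t = Real.cos (2 * Real.pi / M s t) := by
      unfold gram
      rw [if_neg hst, if_neg h0, if_neg h2, if_pos h1]
    rw [hg] at hsw
    have h3 := two_le hst h0
    have := pow_one (hsq s) (hsq t) (m := M s t) (by omega) hsw
    rw [Units.val_pow_eq_pow_val]
    simpa using this
  · intro s t hst h0 h2 h1
    apply Units.ext
    have hsw := xx_swap hs s t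
    have hg : gram M d s t = Real.cos (Real.pi / M s t) := by
      unfold gram
      rw [if_neg hst, if_neg h0, if_neg h2, if_neg h1]
    rw [hg] at hsw
    have := pow_neg_one (hsq s) (hsq t) (m := M s t) (two_le hst h0) hsw
    rw [Units.val_pow_eq_pow_val]
    simpa using this

/-- distinct commuting generators are distinct elements -/
theorem simple_ne {s t : B} (hst : s ≠ t) (h2 : M s t = 2) : cs.simple s ≠ cs.simple t := by
  obtain ⟨G, _, z, f, hz, hzz, hc, hsq, hf2, hf1, hf3⟩ := cliff M (fun _ _ => 1) (fun _ _ _ _ => rfl)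
  let N : Subgroup G := Subgroup.zpowers z
  have hN : N.Normal := by
    refine ⟨fun n hn g => ?_⟩
    obtain ⟨k, rfl⟩ := Subgroup.mem_zpowers_iff.1 hn
    have hc' : Commute z g := hc g
    have h1 : g * z ^ k * g⁻¹ = z ^ k := by
      rw [(hc'.zpow_left k).symm.eq, mul_inv_cancel_right]
    rw [h1]
    exact hn
  have hzN : QuotientGroup.mk' N z = 1 := by
    rw [QuotientGroup.mk'_apply, QuotientGroup.eq_one_iff]
    exact Subgroup.mem_zpowers z
  have hl : M.IsLiftable fun s => QuotientGroup.mk' N (f s) := by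
    intro i j
    rw [← map_mul, ← map_pow]
    by_cases hij : i = j
    · subst hij
      rw [M.diagonal, _root_.pow_one, hsq, map_one]
    by_cases h0 : M i j = 0
    · rw [h0, pow_zero, map_one]
    by_cases h2 : M i j = 2
    · rw [hf2 i j hij h2, hzN]
    · rw [hf1 i j hij h0 h2 rfl, map_one]
  intro heq
  have h1 := cs.lift_apply_simple hl s
  have h3 := cs.lift_apply_simple hl t
  rw [heq, h3] at h1
  rw [QuotientGroup.mk'_apply, QuotientGroup.mk'_apply, QuotientGroup.eq] at h1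
  have h4 : f t * f s = 1 ∨ f t * f s = z := by
    have h5 : (f t)⁻¹ = f t := inv_eq_of_mul_eq_one_left (hsq t)
    rw [h5] at h1
    obtain ⟨k, hk⟩ := Subgroup.mem_zpowers_iff.1 h1
    have hz2 : z ^ (2 : ℤ) = 1 := by rw [zpow_two]; exact hzz
    rcases Int.even_or_odd' k with ⟨j, rfl | rfl⟩
    · left; rw [← hk, zpow_mul, hz2, one_zpow]
    · right; rw [← hk, zpow_add, zpow_mul, hz2, one_zpow, one_mul, zpow_one]
  have h5 : (f t * f s) ^ 2 = 1 := by
    rcases h4 with h | h
    · rw [h, one_pow]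
    · rw [h, pow_two, hzz]
  have h6 := hf2 t s (Ne.symm hst) (by rw [M.symmetric]; exact h2)
  rw [M.symmetric, h2, h5] at h6
  exact hz h6.symm

/-- the pairs of commuting reflections conjugate to a pair with sign `1` -/
def PP (cs : CoxeterSystem M W) (c : B → B → ℤˣ) (x y : W) : Prop :=
  ∃ (g : W) (s t : B), s ≠ t ∧ M s t = 2 ∧ c s t = 1 ∧ x = g * cs.simple s * g⁻¹ ∧
    y = g * cs.simple t * g⁻¹

theorem PP_conj (c : B → B → ℤˣ) (g x y : W) :
    PP cs c (g * x * g⁻¹) (g * y * g⁻¹) ↔ PP cs c x y := by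
  constructor
  · rintro ⟨h, s, t, h1, h2, h3, h4, h5⟩
    refine ⟨g⁻¹ * h, s, t, h1, h2, h3, ?_, ?_⟩
    · calc x = g⁻¹ * (g * x * g⁻¹) * g := by group
        _ = _ := by rw [h4]; group
    · calc y = g⁻¹ * (g * y * g⁻¹) * g := by group
        _ = _ := by rw [h5]; group
  · rintro ⟨h, s, t, h1, h2, h3, rfl, rfl⟩
    exact ⟨g * h, s, t, h1, h2, h3, by group, by group⟩

theorem PP_irr (c : B → B → ℤˣ) (x : W) : ¬ PP cs c x x := by
  rintro ⟨g, s, t, h1, h2, h3, h4, h5⟩
  apply simple_ne cs h1 h2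
  have : g * cs.simple s * g⁻¹ = g * cs.simple t * g⁻¹ := by rw [← h4, ← h5]
  exact mul_left_cancel (mul_right_cancel this)

theorem PP_symm {c : B → B → ℤˣ} (hc : ∀ s t, s ≠ t → M s t ≠ 0 → c s t = c t s) {x y : W}
    (h : PP cs c x y) : PP cs c y x := by
  obtain ⟨g, s, t, h1, h2, h3, h4, h5⟩ := h
  refine ⟨g, t, s, Ne.symm h1, by rw [M.symmetric]; exact h2, ?_, h5, h4⟩
  rw [← hc s t h1 (by omega)]
  exact h3

/-- the solution -/
theorem exists_solution (c : B → B → ℤˣ) (hc : ∀ s t, s ≠ t → M s t ≠ 0 → c s t = c t s)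
    (hinv : ∀ s t s' t', s ≠ t → M s t ≠ 0 → s' ≠ t' → M s' t' ≠ 0 →
      (∃ g : W, g * cs.simple s * g⁻¹ = cs.simple s' ∧ g * cs.simple t * g⁻¹ = cs.simple t') →
      c s t = c s' t') :
    ∃ (G : Type (max u v)) (_ : Group G) (z : G) (f : B → G), z ≠ 1 ∧ z * z = 1 ∧ (∀ g, z * g = g * z) ∧
      (∀ s, f s * f s = 1) ∧
      (∀ s t, s ≠ t → M s t ≠ 0 → c s t = 1 → (f s * f t) ^ M s t = 1) ∧
      (∀ s t, s ≠ t → M s t ≠ 0 → c s t = -1 → (f s * f t) ^ M s t = z) := by
  classical
  have hP : ∀ g x y, PP cs c (g * x * g⁻¹) (g * y * g⁻¹) ↔ PP cs c x y := PP_conj cs c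
  have hsymm : ∀ x y, PP cs c x y → PP cs c y x := fun x y h => PP_symm cs hc h
  have hsq2 : ∀ s, lf hP (cs.simple s) * lf hP (cs.simple s) = 1 := fun s =>
    lf_sq hP (cs.simple_mul_simple_self s)
  -- the value of the second solution
  have hval : ∀ s t, s ≠ t → M s t ≠ 0 →
      (lf hP (cs.simple s) * lf hP (cs.simple t)) ^ M s t = 1 ∨
      (lf hP (cs.simple s) * lf hP (cs.simple t)) ^ M s t = qs hP := fun s t _ _ =>
    pow_mem hP (cs.simple_mul_simple_self s) (cs.simple_mul_simple_self t)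
      (cs.simple_mul_simple_pow s t)
  have hne : qs hP ≠ 1 := qs_ne hP hsymm (PP_irr cs c)
  -- the sign choice for the Clifford part
  let d : B → B → ℤˣ := fun s t =>
    if (lf hP (cs.simple s) * lf hP (cs.simple t)) ^ M s t = 1 then c s t else - c s t
  have hd : ∀ s t, s ≠ t → M s t ≠ 0 → d s t = d t s := by
    intro s t hst h0
    have h1 : (lf hP (cs.simple s) * lf hP (cs.simple t)) ^ M s t = 1 ↔
        (lf hP (cs.simple t) * lf hP (cs.simple s)) ^ M t s = 1 := by
      rw [M.symmetric t s]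
      have e : (lf hP (cs.simple t) * lf hP (cs.simple s)) =
          (lf hP (cs.simple s) * lf hP (cs.simple t))⁻¹ := by
        rw [mul_inv_rev, inv_eq_of_mul_eq_one_left (hsq2 s), inv_eq_of_mul_eq_one_left (hsq2 t)]
      rw [e, inv_pow, inv_eq_one]
    show (if _ then _ else _) = (if _ then _ else _)
    rw [hc s t hst h0]
    by_cases h : (lf hP (cs.simple s) * lf hP (cs.simple t)) ^ M s t = 1
    · rw [if_pos h, if_pos (h1.1 h)]
    · rw [if_neg h, if_neg (fun h' => h (h1.2 h'))]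
  obtain ⟨G₁, _, z₁, f₁, hz, hzz, hcen, hsq, hf2, hf1, hf3⟩ := cliff M d hd
  obtain ⟨G, _, φ, z, hφ1, hφ2, hzne, hzsq, hzc⟩ := glue z₁ (qs hP) hzz (qs_sq hP) hcen
    (qs_central hP) hz hne
  refine ⟨G, inferInstance, z, fun s => φ (f₁ s, lf hP (cs.simple s)), hzne, hzsq, hzc, ?_, ?_, ?_⟩
  · intro s
    rw [← map_mul]
    have : (f₁ s, lf hP (cs.simple s)) * (f₁ s, lf hP (cs.simple s)) = 1 :=
      Prod.ext (hsq s) (hsq2 s)
    rw [this, map_one]
  · intro s t hst h0 h1
    rw [← map_mul, ← map_pow]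
    have e : ((f₁ s, lf hP (cs.simple s)) * (f₁ t, lf hP (cs.simple t))) ^ M s t =
        ((f₁ s * f₁ t) ^ M s t, (lf hP (cs.simple s) * lf hP (cs.simple t)) ^ M s t) := rfl
    rw [e]
    by_cases h2 : M s t = 2
    · have hp : PP cs c (cs.simple s) (cs.simple t) :=
        ⟨1, s, t, hst, h2, h1, by simp, by simp⟩
      have h3 := (pow_two_of hP (cs.simple_mul_simple_self s) (cs.simple_mul_simple_self t)
        (by rw [← h2]; exact cs.simple_mul_simple_pow s t)).1 hp
      rw [hf2 s t hst h2, h2, h3]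
      have e2 : ((z₁, qs hP) : G₁ × _) = (z₁, 1) * (1, qs hP) := Prod.ext (by simp) (by simp)
      rw [e2, map_mul, hφ1, hφ2, hzsq]
    · rcases hval s t hst h0 with h3 | h3
      · rw [h3, hf1 s t hst h0 h2 (by show (if _ then _ else _) = _; rw [if_pos h3]; exact h1)]
        exact map_one φ
      · have h4 : ¬ (lf hP (cs.simple s) * lf hP (cs.simple t)) ^ M s t = 1 := by
          rw [h3]; exact hne
        rw [h3, hf3 s t hst h0 h2 (by
          show ¬ (if _ then _ else _) = (1 : ℤˣ)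
          rw [if_neg h4, h1]
          decide)]
        have e2 : ((z₁, qs hP) : G₁ × _) = (z₁, 1) * (1, qs hP) := Prod.ext (by simp) (by simp)
        rw [e2, map_mul, hφ1, hφ2, hzsq]
  · intro s t hst h0 h1
    rw [← map_mul, ← map_pow]
    have e : ((f₁ s, lf hP (cs.simple s)) * (f₁ t, lf hP (cs.simple t))) ^ M s t =
        ((f₁ s * f₁ t) ^ M s t, (lf hP (cs.simple s) * lf hP (cs.simple t)) ^ M s t) := rfl
    rw [e]
    by_cases h2 : M s t = 2
    · have hp : ¬ PP cs c (cs.simple s) (cs.simple t) := by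
        rintro ⟨g, s', t', h4, h5, h6, h7, h8⟩
        have h9 := hinv s' t' s t h4 (by omega) hst h0 ⟨g, h7.symm, h8.symm⟩
        rw [h6, h1] at h9
        exact absurd h9 (by decide)
      have h3 := (pow_two_of hP (cs.simple_mul_simple_self s) (cs.simple_mul_simple_self t)
        (by rw [← h2]; exact cs.simple_mul_simple_pow s t)).2 hp
      rw [hf2 s t hst h2, h2, h3]
      exact hφ1
    · rcases hval s t hst h0 with h3 | h3
      · rw [h3, hf3 s t hst h0 h2 (by
          show ¬ (if _ then _ else _) = (1 : ℤˣ)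
          rw [if_pos h3, h1]
          decide)]
        exact hφ1
      · have h4 : ¬ (lf hP (cs.simple s) * lf hP (cs.simple t)) ^ M s t = 1 := by
          rw [h3]; exact hne
        rw [h3, hf1 s t hst h0 h2 (by
          show (if _ then _ else _) = (1 : ℤˣ)
          rw [if_neg h4, h1]
          decide)]
        exact hφ2

end Main

end Pool.Agent.N908.Cox
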