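import Pool.Agent.N908.Cox.Ext
import Pool.Agent.N908.Cox.Cliff

/-!
The semidirect product `EE P ⋊ W` and the elements `[s] s`.
-/

set_option autoImplicit false
set_option linter.all false

namespace Pool.Agent.N908.Cox

section Act

variable {W : Type*} [Group W] {P : W → W → Prop}

/-- `W` acts on `EE P` by conjugation of the generators -/
noncomputable def actHom (hP : ∀ g x y, P (g * x * g⁻¹) (g * y * g⁻¹) ↔ P x y) (g : W) :
    EE P →* EE P :=
  liftE (qq P) (fun x => br P (g * x * g⁻¹)) qq_sq (fun x => br_sq _) (fun x => qq_br _)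
    (fun x y h => br_comm (fun h' => h ((hP g x y).1 h')))
    (fun x y h => br_anti ((hP g x y).2 h))

theorem actHom_qq (hP : ∀ g x y, P (g * x * g⁻¹) (g * y * g⁻¹) ↔ P x y) (g : W) :
    actHom hP g (qq P) = qq P := liftE_qq

theorem actHom_br (hP : ∀ g x y, P (g * x * g⁻¹) (g * y * g⁻¹) ↔ P x y) (g x : W) :
    actHom hP g (br P x) = br P (g * x * g⁻¹) := liftE_br x

theorem actHom_one (hP : ∀ g x y, P (g * x * g⁻¹) (g * y * g⁻¹) ↔ P x y) :
    actHom hP 1 = MonoidHom.id _ := by
  apply hom_ext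
  · rw [actHom_qq]; rfl
  · intro x
    rw [actHom_br]
    simp

theorem actHom_mul (hP : ∀ g x y, P (g * x * g⁻¹) (g * y * g⁻¹) ↔ P x y) (g h : W) :
    actHom hP (g * h) = (actHom hP g).comp (actHom hP h) := by
  apply hom_ext
  · rw [MonoidHom.comp_apply, actHom_qq, actHom_qq, actHom_qq]
  · intro x
    rw [MonoidHom.comp_apply, actHom_br, actHom_br, actHom_br]
    congr 1
    group

/-- the action as a homomorphism to automorphisms -/
noncomputable def act (hP : ∀ g x y, P (g * x * g⁻¹) (g * y * g⁻¹) ↔ P x y) : W →* MulAut (EE P) where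
  toFun g := MonoidHom.toMulEquiv (actHom hP g) (actHom hP g⁻¹)
    (by rw [← actHom_mul, inv_mul_cancel, actHom_one])
    (by rw [← actHom_mul, mul_inv_cancel, actHom_one])
  map_one' := by
    ext e
    show actHom hP 1 e = e
    rw [actHom_one]; rfl
  map_mul' g h := by
    ext e
    show actHom hP (g * h) e = actHom hP g (actHom hP h e)
    rw [actHom_mul]; rfl

theorem act_apply (hP : ∀ g x y, P (g * x * g⁻¹) (g * y * g⁻¹) ↔ P x y) (g : W) (e : EE P) :
    act hP g e = actHom hP g e := rfl

/-- the lift `[s] s` of an element `s` -/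
noncomputable def lf (hP : ∀ g x y, P (g * x * g⁻¹) (g * y * g⁻¹) ↔ P x y) (s : W) :
    EE P ⋊[act hP] W := ⟨br P s, s⟩

/-- the central element -/
noncomputable def qs (hP : ∀ g x y, P (g * x * g⁻¹) (g * y * g⁻¹) ↔ P x y) :
    EE P ⋊[act hP] W := ⟨qq P, 1⟩

theorem qs_sq (hP : ∀ g x y, P (g * x * g⁻¹) (g * y * g⁻¹) ↔ P x y) : qs hP * qs hP = 1 := by
  ext
  · simp only [qs, SemidirectProduct.mul_left, map_one, MulAut.one_apply,
      SemidirectProduct.one_left]
    exact qq_sq
  · simp [qs]

theorem qs_central (hP : ∀ g x y, P (g * x * g⁻¹) (g * y * g⁻¹) ↔ P x y)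
    (a : EE P ⋊[act hP] W) : qs hP * a = a * qs hP := by
  ext
  · simp only [qs, SemidirectProduct.mul_left, map_one, MulAut.one_apply, act_apply, actHom_qq]
    exact qq_central _
  · simp [qs]

theorem qs_ne (hP : ∀ g x y, P (g * x * g⁻¹) (g * y * g⁻¹) ↔ P x y)
    (h1 : ∀ x y, P x y → P y x) (h2 : ∀ x, ¬ P x x) : qs hP ≠ 1 := by
  intro h
  have := congrArg SemidirectProduct.left h
  exact qq_ne h1 h2 this

theorem lf_sq (hP : ∀ g x y, P (g * x * g⁻¹) (g * y * g⁻¹) ↔ P x y) {s : W} (hs : s * s = 1) :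
    lf hP s * lf hP s = 1 := by
  ext
  · simp only [lf, SemidirectProduct.mul_left, act_apply, actHom_br,
      SemidirectProduct.one_left]
    rw [mul_inv_cancel_right]
    exact br_sq s
  · simpa [lf] using hs

theorem pow_right' (hP : ∀ g x y, P (g * x * g⁻¹) (g * y * g⁻¹) ↔ P x y) (s t : W) (n : ℕ) :
    ((lf hP s * lf hP t) ^ n).right = (s * t) ^ n := by
  induction n with
  | zero => simp
  | succ n ih => rw [pow_succ, SemidirectProduct.mul_right, ih, pow_succ]; rfl

theorem conj_pow {s t : W} (hs : s * s = 1) (ht : t * t = 1) (n : ℕ) :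
    (s * t) ^ n * s * ((s * t) ^ n)⁻¹ = (s * t) ^ (2 * n) * s := by
  have h1 : s * ((s * t) ^ n)⁻¹ = (s * t) ^ n * s := by
    have hs' : s⁻¹ = s := inv_eq_of_mul_eq_one_left hs
    have ht' : t⁻¹ = t := inv_eq_of_mul_eq_one_left ht
    induction n with
    | zero => simp
    | succ n ih =>
      rw [pow_succ, mul_inv_rev, mul_inv_rev, hs', ht']
      calc s * (t * s * ((s * t) ^ n)⁻¹) = (s * t) * (s * ((s * t) ^ n)⁻¹) := by group
        _ = (s * t) * ((s * t) ^ n * s) := by rw [ih]
        _ = (s * t) ^ n * (s * t) * s := by rw [← mul_assoc, ← pow_succ', pow_succ]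
  rw [mul_assoc, h1, ← mul_assoc, ← pow_add, two_mul]

theorem pow_left' (hP : ∀ g x y, P (g * x * g⁻¹) (g * y * g⁻¹) ↔ P x y) {s t : W}
    (hs : s * s = 1) (ht : t * t = 1) (n : ℕ) :
    ((lf hP s * lf hP t) ^ n).left =
      ((List.range (2 * n)).map fun j => br P ((s * t) ^ j * s)).prod := by
  induction n with
  | zero => simp
  | succ n ih =>
    rw [pow_succ, SemidirectProduct.mul_left, ih, pow_right']
    have e1 : (lf hP s * lf hP t).left = br P s * br P (s * t * s⁻¹) := by
      rw [SemidirectProduct.mul_left]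
      show br P s * act hP s (br P t) = _
      rw [act_apply, actHom_br]
    rw [e1, act_apply, map_mul, actHom_br, actHom_br]
    have hs' : s⁻¹ = s := inv_eq_of_mul_eq_one_left hs
    have e2 : (s * t) ^ n * (s * t * s⁻¹) * ((s * t) ^ n)⁻¹ = (s * t) ^ (2 * n + 1) * s := by
      calc (s * t) ^ n * (s * t * s⁻¹) * ((s * t) ^ n)⁻¹
          = ((s * t) ^ n * (s * t)) * s * ((s * t) ^ n)⁻¹ := by rw [hs']; group
        _ = ((s * t) * (s * t) ^ n) * s * ((s * t) ^ n)⁻¹ := by rw [← pow_succ, pow_succ']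
        _ = (s * t) * ((s * t) ^ n * s * ((s * t) ^ n)⁻¹) := by group
        _ = (s * t) * ((s * t) ^ (2 * n) * s) := by rw [conj_pow hs ht]
        _ = (s * t) ^ (2 * n + 1) * s := by rw [← mul_assoc, ← pow_succ']
    rw [conj_pow hs ht, e2, show 2 * (n + 1) = 2 * n + 1 + 1 by ring, List.range_succ,
      List.range_succ]
    simp only [List.map_append, List.map_cons, List.map_nil, List.prod_append, List.prod_cons,
      List.prod_nil, mul_one]
    rw [mul_assoc]

theorem pow_left_sq (hP : ∀ g x y, P (g * x * g⁻¹) (g * y * g⁻¹) ↔ P x y) {s t : W}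
    (hs : s * s = 1) (ht : t * t = 1) {m : ℕ} (hm : (s * t) ^ m = 1) :
    ((lf hP s * lf hP t) ^ m).left =
      ((List.range m).map fun j => br P ((s * t) ^ j * s)).prod *
      ((List.range m).map fun j => br P ((s * t) ^ j * s)).prod := by
  rw [pow_left' hP hs ht, two_mul, List.range_add, List.map_append, List.prod_append,
    List.map_map]
  congr 2
  apply List.map_congr_left
  intro j _
  show br P ((s * t) ^ (m + j) * s) = _
  rw [pow_add, hm, one_mul]

theorem pow_mem (hP : ∀ g x y, P (g * x * g⁻¹) (g * y * g⁻¹) ↔ P x y) {s t : W}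
    (hs : s * s = 1) (ht : t * t = 1) {m : ℕ} (hm : (s * t) ^ m = 1) :
    (lf hP s * lf hP t) ^ m = 1 ∨ (lf hP s * lf hP t) ^ m = qs hP := by
  have h := list_sq (P := P) ((List.range m).map fun j => (s * t) ^ j * s)
  rw [List.map_map] at h
  have h1 := pow_left_sq hP hs ht hm
  rcases h with h | h
  · left
    ext
    · rw [h1]; exact h
    · rw [pow_right', hm]; rfl
  · right
    ext
    · rw [h1]; exact h
    · rw [pow_right', hm]; rfl

theorem pow_two_of (hP : ∀ g x y, P (g * x * g⁻¹) (g * y * g⁻¹) ↔ P x y) {s t : W}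
    (hs : s * s = 1) (ht : t * t = 1) (hm : (s * t) ^ 2 = 1) :
    ((P s t → (lf hP s * lf hP t) ^ 2 = qs hP) ∧
      (¬ P s t → (lf hP s * lf hP t) ^ 2 = 1)) := by
  have h1 := pow_left_sq hP hs ht hm
  have h2 : s * t * s = t := by
    have h3 : s * t * (s * t) = 1 := by rw [← pow_two]; exact hm
    have h4 : (s * t * s) * t = 1 := by rw [← h3]; group
    rw [mul_eq_one_iff_eq_inv, inv_eq_of_mul_eq_one_left ht] at h4
    exact h4
  have h3 : ((List.range 2).map fun j => br P ((s * t) ^ j * s)).prod = br P s * br P t := by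
    simp [List.range_succ, h2]
  rw [h3] at h1
  constructor
  · intro h
    ext
    · rw [h1]
      show br P s * br P t * (br P s * br P t) = qq P
      nth_rewrite 1 [br_anti h]
      calc qq P * (br P t * br P s) * (br P s * br P t)
          = qq P * (br P t * (br P s * br P s) * br P t) := by group
        _ = qq P := by rw [br_sq, mul_one, br_sq, mul_one]
    · rw [pow_right', hm]; rfl
  · intro h
    ext
    · rw [h1]
      show br P s * br P t * (br P s * br P t) = 1
      nth_rewrite 1 [br_comm h]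
      calc (br P t * br P s) * (br P s * br P t)
          = (br P t * (br P s * br P s) * br P t) := by group
        _ = 1 := by rw [br_sq, mul_one, br_sq]
    · rw [pow_right', hm]; rfl

end Act

end Pool.Agent.N908.Cox
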